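import Pool.Agent.N789.MO.Win
import Pool.Agent.N789.MO.Fin
import Pool.Agent.N247.MO.DEC
import Pool.Agent.N602.MO.LOW
import Pool.Agent.N135.MO.OFF
import Pool.Agent.Y842.EL.One

/-!
# MP_a187e6_nt: the partial sums of an MO function are never `O(1 / x)`

For every MO function `f` (`f` multiplicative, `∑ f(n)` converges to `0`, and `∑_k f(p ^ k)` converges
to a nonzero value for every prime `p`), `limsup_{x → ∞} x |S_f(x)| = ∞`, where
`S_f(x) = ∑_{n ≤ x} f(n)`. The starting result `OmegaInverse` has `limsup x |S_f(x)| ≥ 1 / 2`.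

Proof. Let `|S_f(x)| ≤ K / x` and `h(n) = n f(n)`. Then `|h| ≤ 3 K`, all the sums of `h` over windows
`(n, n + L]`, `L ≤ n`, are bounded, and `∑_p |1 + Re h(p)| / p` and `∑_p max(|h(p)| - 1, 0) / p`
converge (`Pool.Agent.TH127.MO`, the library of the starting result `NearMoebius`). So `λ h`, where
`λ` is the Liouville function, is, in the mean over `n ≤ N`, nearly equal to `u_N w(n)` with `w`
periodic and `|u_N| = 1` (from `Pool.Agent.Y681.E.Apx2`, after a factorization of `h` into a 1-bounded
multiplicative function and a function with few values different from `1`). By the two-point theorem for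
`λ` at almost all scales with periodic weights (`Pool.Agent.Y842.EL`, after Tao), the means of
`h(n + r) conj h(n)`, `r ≥ 1`, tend to zero outside a set `F` of scales of logarithmic density zero. On
the other hand, the means of `|h(n)|^2` are at least `c > 0`. Hence, at scales outside `F`, the mean
square of the sums of `h` over windows of length `L` is at least `c L / 2`, which for large `L`
contradicts the boundedness.
-/

set_option autoImplicit false

namespace Pool.Agent.Results.MP_a187e6_nt.NotBigOInverse

open Filter Topology Finset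

/-- `f` (only its values at `n ≥ 1` matter) is an MO function: multiplicative, with
`∑ f(n)` convergent to `0`, and `∑_k f(p ^ k)` convergent to a nonzero value for every prime `p` -/
structure IsMO (f : ℕ → ℂ) : Prop where
  one : f 1 = 1
  mul : ∀ m n : ℕ, 1 ≤ m → 1 ≤ n → Nat.Coprime m n → f (m * n) = f m * f n
  sum_zero : Tendsto (fun N : ℕ => ∑ n ∈ Icc 1 N, f n) atTop (𝓝 0)
  local_ne_zero : ∀ p : ℕ, p.Prime →
    ∃ L : ℂ, L ≠ 0 ∧ Tendsto (fun K : ℕ => ∑ k ∈ range K, f (p ^ k)) atTop (𝓝 L)

/-- the partial sum `S_f(x) = ∑_{n ≤ x} f(n)` -/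
noncomputable def partialSum (f : ℕ → ℂ) (x : ℝ) : ℂ := ∑ n ∈ Icc 1 ⌊x⌋₊, f n

/-- For every MO function `f` and every `C` there are arbitrarily large `x` with
`|S_f(x)| > C / x`: the partial sums are not `O(1 / x)`. -/
theorem result (f : ℕ → ℂ) (hf : IsMO f) (C : ℝ) :
    ∃ᶠ x : ℝ in atTop, C / x < ‖partialSum f x‖ := by
  have hf' : Pool.Agent.TH127.MO.IsMO f :=
    ⟨hf.one, fun m n hm hn => hf.mul m n hm hn, hf.sum_zero, hf.local_ne_zero⟩
  exact Pool.Agent.N789.MO.frequently_gt (Pool.Agent.N789.MO.win
    (Pool.Agent.N135.MO.off Pool.Agent.Y842.EL.one_set Pool.Agent.N247.MO.dec)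
    Pool.Agent.N602.MO.low) hf' C

end Pool.Agent.Results.MP_a187e6_nt.NotBigOInverse
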